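import Pool.Agent.Helper77.CMProof

universe u

namespace Pool.Agent.Results.MP_0a5ef7_al.Disproof

open Pool.Agent.Helper77.CM

/-- For every field `k` there is a Cohen-Macaulay local ring `R` (a one-dimensional noetherian
local domain with residue field `k` whose maximal ideal has two generators) of countable
CM-representation type such that the dimension of the category `CM(R)` of maximal
Cohen-Macaulay modules is infinite. -/
theorem result (k : Type u) [Field k] :
    ∃ (R : Type u) (_ : CommRing R) (_ : IsLocalRing R),
      IsDomain R ∧ IsCMLocalRing R ∧ ringKrullDim R = 1 ∧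
      (∃ a b : R, IsLocalRing.maximalIdeal R = Ideal.span {a, b}) ∧
      Nonempty (IsLocalRing.ResidueField R ≃+* k) ∧
      CountableCMType R ∧
      dimSubcat R (IsMCM R) = ⊤ :=
  Pool.Agent.Helper77.CM.main k

end Pool.Agent.Results.MP_0a5ef7_al.Disproof
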